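import Mathlib

/-!
MP_07bc1a_al, Q1: a finitely generated acyclic monoid which does not satisfy the ACCP.
-/

set_option autoImplicit false

namespace Pool.Agent.Results.MP_07bc1a_al.AcyclicNoACCP

/-- Acyclic monoids. -/
def Acyclic (H : Type) [Monoid H] : Prop :=
  ∀ u v x : H, (¬ IsUnit u ∨ ¬ IsUnit v) → u * x * v ≠ x

/-- The principal two-sided ideal generated by `a`. -/
def PIdeal {H : Type} [Monoid H] (a : H) : Set H := {z | ∃ x y : H, z = x * a * y}

/-- the letters -/
inductive Lt : Type
  | a : Lt
  | b : Lt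
  | c : Lt
  | d : Lt
  deriving DecidableEq

namespace Lt

/-- `b * c ^ n * d` -/
def blk (n : ℕ) : List Lt := .b :: (List.replicate n .c ++ [.d])

/-- the relations `a * b * c ^ (n + 1) * d = b * c ^ n * d` -/
def Rel (x y : FreeMonoid Lt) : Prop :=
  ∃ n, x = FreeMonoid.ofList (.a :: blk (n + 1)) ∧ y = FreeMonoid.ofList (blk n)

/-- the syntactic congruence of a function -/
def syn {T : Type} (f : List Lt → T) : Con (FreeMonoid Lt) where
  r x y := ∀ p q : List Lt, f (p ++ FreeMonoid.toList x ++ q) = f (p ++ FreeMonoid.toList y ++ q)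
  iseqv := ⟨fun _ _ _ => rfl, fun h p q => (h p q).symm, fun h h' p q => (h p q).trans (h' p q)⟩
  mul' := by
    intro w x y z h h' p q
    rw [FreeMonoid.toList_mul, FreeMonoid.toList_mul]
    have h1 := h p (FreeMonoid.toList y ++ q)
    have h2 := h' (p ++ FreeMonoid.toList x) q
    simp only [List.append_assoc] at h1 h2 ⊢
    rw [h1, h2]

theorem inv {T : Type} (f : List Lt → T)
    (hf : ∀ n p q, f (p ++ (.a :: blk (n + 1)) ++ q) = f (p ++ blk n ++ q)) {x y : FreeMonoid Lt}
    (h : conGen Rel x y) : f (FreeMonoid.toList x) = f (FreeMonoid.toList y) := by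
  have h1 : conGen Rel ≤ syn f := by
    refine Con.conGen_le.2 ?_
    rintro x y ⟨n, rfl, rfl⟩ p q
    exact hf n p q
  have := h1 h [] []
  simpa using this

/-- the number of letters `c` before the next letter if that is `d`, plus `n`, and `0` otherwise -/
def kap : List Lt → ℕ → ℕ
  | .c :: w, n => kap w (n + 1)
  | .d :: _, n => n
  | _, _ => 0

/-- the first invariant -/
def del : List Lt → ℤ
  | .a :: w => 1 + del w
  | .c :: w => 1 + del w
  | .b :: w => - (kap w 0 : ℤ)
  | .d :: _ => 0
  | [] => 0

theorem kap_rep (n : ℕ) (q : List Lt) : ∀ m, kap (List.replicate n .c ++ .d :: q) m = n + m := by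
  induction n with
  | zero => intro m; simp [kap]
  | succ n ih =>
    intro m
    rw [List.replicate_succ, List.cons_append, kap, ih]
    omega

theorem kap_inv (n : ℕ) (q : List Lt) (p : List Lt) : ∀ m,
    kap (p ++ (.a :: blk (n + 1)) ++ q) m = kap (p ++ blk n ++ q) m := by
  induction p with
  | nil => intro m; simp [kap, blk]
  | cons x p ih =>
    intro m
    cases x with
    | c => exact ih (m + 1)
    | a => rfl
    | b => rfl
    | d => rfl

theorem del_inv (n : ℕ) (p q : List Lt) :
    del (p ++ (.a :: blk (n + 1)) ++ q) = del (p ++ blk n ++ q) := by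
  induction p with
  | nil =>
    have e1 : ([] : List Lt) ++ (.a :: blk (n + 1)) ++ q =
        .a :: .b :: (List.replicate (n + 1) .c ++ .d :: q) := by simp [blk]
    have e2 : ([] : List Lt) ++ blk n ++ q = .b :: (List.replicate n .c ++ .d :: q) := by
      simp [blk]
    rw [e1, e2, del, del, del, kap_rep, kap_rep]
    push_cast
    ring
  | cons x p ih =>
    cases x with
    | a => simp only [List.cons_append, del] at ih ⊢; rw [ih]
    | c => simp only [List.cons_append, del] at ih ⊢; rw [ih]
    | b =>
      have := kap_inv n q p 0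
      simp only [List.cons_append, del] at this ⊢
      rw [this]
    | d => rfl

/-- being `a` or `c` -/
def ac : Lt → Bool
  | .a => true
  | .c => true
  | _ => false

/-- the second invariant -/
def phi (w : List Lt) : ℕ := (w.reverse.takeWhile ac).length

theorem phi_cut (p q : List Lt) : phi (p ++ .d :: q) = (q.reverse.takeWhile ac).length := by
  unfold phi
  rw [List.reverse_append, List.reverse_cons, List.append_assoc, List.singleton_append]
  generalize q.reverse = q'
  induction q' with
  | nil => simp [ac]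
  | cons x q' ih =>
    cases x <;> simp [ac, List.takeWhile_cons] <;> exact ih

theorem phi_inv (n : ℕ) (p q : List Lt) :
    phi (p ++ (.a :: blk (n + 1)) ++ q) = phi (p ++ blk n ++ q) := by
  have e1 : p ++ (.a :: blk (n + 1)) ++ q =
      (p ++ .a :: .b :: List.replicate (n + 1) .c) ++ .d :: q := by simp [blk]
  have e2 : p ++ blk n ++ q = (p ++ .b :: List.replicate n .c) ++ .d :: q := by simp [blk]
  rw [e1, e2, phi_cut, phi_cut]

/-- the number of letters `b`, `d` -/
def cnt (w : List Lt) : ℕ := w.countP fun x => !ac x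

theorem cnt_append (v w : List Lt) : cnt (v ++ w) = cnt v + cnt w := List.countP_append

theorem cnt_inv (n : ℕ) (p q : List Lt) :
    cnt (p ++ (.a :: blk (n + 1)) ++ q) = cnt (p ++ blk n ++ q) := by
  have h : ∀ k, cnt (List.replicate k .c) = 0 := by
    intro k
    unfold cnt
    rw [List.countP_replicate]
    simp [ac]
  have h2 : ∀ k, cnt (blk k) = 2 := by
    intro k
    have : blk k = [.b] ++ List.replicate k .c ++ [.d] := by simp [blk]
    rw [this, cnt_append, cnt_append, h]
    rfl
  have h3 : (.a :: blk (n + 1)) = [.a] ++ blk (n + 1) := rfl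
  rw [h3]
  simp only [cnt_append, h2]
  rfl

theorem del_app (w : List Lt) : ∀ u : List Lt, cnt u = 0 → del (u ++ w) = u.length + del w := by
  intro u
  induction u with
  | nil => intro _; simp
  | cons x u ih =>
    intro h
    have h' : cnt [x] + cnt u = 0 := by rw [← cnt_append]; exact h
    have ih' := ih (by omega)
    cases x with
    | a => rw [List.cons_append, del, ih', List.length_cons]; push_cast; ring
    | c => rw [List.cons_append, del, ih', List.length_cons]; push_cast; ring
    | b => simp [cnt, ac] at h'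
    | d => simp [cnt, ac] at h'

theorem phi_app (w : List Lt) : ∀ v : List Lt, cnt v = 0 → phi (w ++ v) = v.length + phi w := by
  intro v
  induction v using List.reverseRecOn with
  | nil => intro _; simp
  | append_singleton v x ih =>
    intro h
    rw [cnt_append] at h
    have ih' := ih (by omega)
    unfold phi at ih' ⊢
    rw [← List.append_assoc, List.reverse_append (as := w ++ v), List.reverse_singleton,
      List.singleton_append, List.takeWhile_cons]
    cases x with
    | a => simp only [ac, if_true, List.length_cons, List.length_append]; rw [ih']; simp; ring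
    | c => simp only [ac, if_true, List.length_cons, List.length_append]; rw [ih']; simp; ring
    | b => simp [cnt, ac] at h
    | d => simp [cnt, ac] at h

theorem phi_le (w u : List Lt) : phi w ≤ phi (u ++ w) := by
  unfold phi
  rw [List.reverse_append]
  generalize w.reverse = w'
  generalize u.reverse = u'
  induction w' with
  | nil => simp
  | cons x w' ih =>
    cases x <;> simp [List.takeWhile_cons, ac] <;> exact ih

/-- the monoid -/
abbrev H : Type := (conGen Rel).Quotient

/-- the class of a word -/
def cls (w : List Lt) : H := ((FreeMonoid.ofList w : FreeMonoid Lt) : (conGen Rel).Quotient)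

theorem cls_append (x y : List Lt) : cls (x ++ y) = cls x * cls y := rfl

theorem cls_surj (m : H) : ∃ x, cls x = m := by
  induction m using Con.induction_on with
  | H x => exact ⟨FreeMonoid.toList x, rfl⟩

theorem eq_inv {x y : List Lt} (h : cls x = cls y) : del x = del y ∧ phi x = phi y ∧
    cnt x = cnt y := by
  have h' : conGen Rel (FreeMonoid.ofList x) (FreeMonoid.ofList y) := (Con.eq _).1 h
  exact ⟨inv del del_inv h', inv phi phi_inv h', inv cnt cnt_inv h'⟩

theorem cyc {u x v : List Lt} (h : cls (u ++ x ++ v) = cls x) : u = [] ∧ v = [] := by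
  obtain ⟨h1, h2, h3⟩ := eq_inv h
  rw [cnt_append, cnt_append] at h3
  have hu : cnt u = 0 := by omega
  have hv : cnt v = 0 := by omega
  rw [phi_app _ _ hv] at h2
  have h4 := phi_le x u
  have hv' : v = [] := List.length_eq_zero_iff.1 (by omega)
  subst hv'
  rw [List.append_nil, del_app _ _ hu] at h1
  exact ⟨List.length_eq_zero_iff.1 (by omega), rfl⟩

theorem acyclic : Acyclic H := by
  intro u v x huv h
  obtain ⟨u, rfl⟩ := cls_surj u
  obtain ⟨v, rfl⟩ := cls_surj v
  obtain ⟨x, rfl⟩ := cls_surj x
  rw [← cls_append, ← cls_append] at h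
  obtain ⟨rfl, rfl⟩ := cyc h
  have : IsUnit (cls []) := isUnit_one
  rcases huv with h' | h' <;> exact h' this

theorem fg : Monoid.FG H := by
  have h1 : Finite Lt := by
    refine Finite.of_injective (fun x : Lt => match x with
      | .a => (0 : Fin 4)
      | .b => 1
      | .c => 2
      | .d => 3) ?_
    intro x y h
    cases x <;> cases y <;> simp at h <;> rfl
  have h2 : Monoid.FG (FreeMonoid Lt) := inferInstance
  exact Monoid.fg_of_surjective (conGen Rel).mk' Con.mk'_surjective

end Lt

/-- There is a finitely generated acyclic monoid with a strictly ascending infinite chain of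
principal two-sided ideals. -/
theorem result : ∃ (H : Type) (_ : Monoid H), Monoid.FG H ∧ Acyclic H ∧
    ∃ x : ℕ → H, ∀ n, PIdeal (x n) ⊂ PIdeal (x (n + 1)) := by
  refine ⟨Lt.H, inferInstance, Lt.fg, Lt.acyclic, fun n => Lt.cls (Lt.blk n), fun n => ?_⟩
  refine (Set.ssubset_iff_of_subset ?_).2 ⟨Lt.cls (Lt.blk (n + 1)), ⟨1, 1, by simp⟩, ?_⟩
  · rintro z ⟨p, q, rfl⟩
    refine ⟨p * Lt.cls [.a], q, ?_⟩
    have : Lt.cls (.a :: Lt.blk (n + 1)) = Lt.cls (Lt.blk n) :=
      (Con.eq _).2 (ConGen.Rel.of _ _ ⟨n, rfl, rfl⟩)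
    have h2 : Lt.cls (.a :: Lt.blk (n + 1)) = Lt.cls [.a] * Lt.cls (Lt.blk (n + 1)) := rfl
    change p * Lt.cls (Lt.blk n) * q = p * Lt.cls [.a] * Lt.cls (Lt.blk (n + 1)) * q
    rw [← this, h2]
    simp only [mul_assoc]
  · rintro ⟨p, q, h⟩
    change Lt.cls (Lt.blk (n + 1)) = p * Lt.cls (Lt.blk n) * q at h
    obtain ⟨p, rfl⟩ := Lt.cls_surj p
    obtain ⟨q, rfl⟩ := Lt.cls_surj q
    rw [← Lt.cls_append, ← Lt.cls_append] at h
    have h' : Lt.cls ((p ++ [.a]) ++ Lt.blk (n + 1) ++ q) = Lt.cls (Lt.blk (n + 1)) := by
      have : Lt.cls (.a :: Lt.blk (n + 1)) = Lt.cls (Lt.blk n) :=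
        (Con.eq _).2 (ConGen.Rel.of _ _ ⟨n, rfl, rfl⟩)
      rw [h, Lt.cls_append, Lt.cls_append, Lt.cls_append, Lt.cls_append, Lt.cls_append, ← this]
      have h2 : Lt.cls (.a :: Lt.blk (n + 1)) = Lt.cls [.a] * Lt.cls (Lt.blk (n + 1)) := rfl
      rw [h2]
      simp only [mul_assoc]
    have := (Lt.cyc h').1
    simp at this

end Pool.Agent.Results.MP_07bc1a_al.AcyclicNoACCP
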